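import Mathlib
import Pool.Agent.Helper996.MinDegUpper

namespace Pool.Agent.Results.MP_5de61a_co.LargeM

open Finset
open scoped Classical
open Pool.Agent.Helper996

/-- `e(A,B)`: the number of pairs `(u,v)` with `u ∈ A`, `v ∈ B` and `uv` an edge of `G`. -/
noncomputable def crossing {n : ℕ} (G : SimpleGraph (Fin n)) (A B : Finset (Fin n)) : ℕ :=
  ((A ×ˢ B).filter (fun p => G.Adj p.1 p.2)).card

/-- `b(G)`: the largest value of `e(V₁,V₂)` over bisections, `|V₁| ≤ |V₂| ≤ |V₁|+1`. -/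
noncomputable def maxBisection {n : ℕ} (G : SimpleGraph (Fin n)) : ℕ :=
  sSup {k : ℕ | ∃ A : Finset (Fin n), A.card ≤ Aᶜ.card ∧ Aᶜ.card ≤ A.card + 1 ∧
    crossing G A Aᶜ = k}

/-- `b_d(m)`: the least `b(G)` over graphs with `m` edges and minimum degree at least `d`. -/
noncomputable def bdeg (d m : ℕ) : ℕ :=
  sInf {k : ℕ | ∃ (n : ℕ) (G : SimpleGraph (Fin n)), G.edgeSet.ncard = m ∧
    (∀ v, d ≤ (G.neighborSet v).ncard) ∧ maxBisection G = k}

/-- maximum cut of a graph. -/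
noncomputable def maxCut {n : ℕ} (G : SimpleGraph (Fin n)) : ℕ :=
  sSup {k : ℕ | ∃ A : Finset (Fin n), crossing G A Aᶜ = k}

/-- `f(j)`: the least maximum cut over graphs with `j` edges (on `2j` vertices, enough for all
non-isolated vertices). -/
noncomputable def f (j : ℕ) : ℕ :=
  sInf {k : ℕ | ∃ H : SimpleGraph (Fin (2 * j)), H.edgeSet.ncard = j ∧ maxCut H = k}

/-- Edwards' number `⌈j/2 + (√(8j+1) - 1)/8⌉`. -/
noncomputable def edw (j : ℕ) : ℕ := ⌈(j : ℝ) / 2 + (Real.sqrt (8 * j + 1) - 1) / 8⌉₊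

theorem crossing_eq {n : ℕ} (G : SimpleGraph (Fin n)) (S : Finset (Fin n)) :
    crossing G S Sᶜ = Final.cr G S := rfl

theorem bddAbove_cut {n : ℕ} (G : SimpleGraph (Fin n)) :
    BddAbove {k : ℕ | ∃ A : Finset (Fin n), crossing G A Aᶜ = k} := by
  refine ⟨n * n, ?_⟩
  rintro k ⟨A, rfl⟩
  unfold crossing
  refine (card_filter_le _ _).trans ?_
  rw [card_product]
  exact Nat.mul_le_mul (by simpa using card_le_univ A) (by simpa using card_le_univ Aᶜ)

theorem bddAbove_bis {n : ℕ} (G : SimpleGraph (Fin n)) :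
    BddAbove {k : ℕ | ∃ A : Finset (Fin n), A.card ≤ Aᶜ.card ∧ Aᶜ.card ≤ A.card + 1 ∧
      crossing G A Aᶜ = k} :=
  (bddAbove_cut G).mono (by rintro k ⟨A, -, -, h⟩; exact ⟨A, h⟩)

theorem nb {n : ℕ} (G : SimpleGraph (Fin n)) (v : Fin n) :
    (univ.filter (fun u => G.Adj u v)).card = (G.neighborSet v).ncard := by
  rw [← Set.ncard_coe_finset]
  congr 1
  ext u
  simp [SimpleGraph.adj_comm]

theorem bdeg_le {d m n : ℕ} (G : SimpleGraph (Fin n)) (hm : G.edgeSet.ncard = m)
    (hdeg : ∀ v, d ≤ (univ.filter (fun u => G.Adj u v)).card) (R : ℕ)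
    (hR : ∀ S : Finset (Fin n), S.card ≤ Sᶜ.card → Sᶜ.card ≤ S.card + 1 →
        Final.cr G S ≤ R) : bdeg d m ≤ R := by
  have h1 : bdeg d m ≤ maxBisection G :=
    Nat.sInf_le ⟨n, G, hm, fun v => by rw [← nb]; exact hdeg v, rfl⟩
  refine h1.trans ?_
  apply csSup_le'
  rintro k ⟨S, hs1, hs2, rfl⟩
  exact hR S hs1 hs2

theorem f_attained (j : ℕ) :
    ∃ H : SimpleGraph (Fin (2 * j)), H.edgeSet.ncard = j ∧ maxCut H = f j := by
  have h3 := SimpleGraph.card_edgeFinset_top_eq_card_choose_two (V := Fin (2 * j))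
  rw [Fintype.card_fin] at h3
  have h4 : (⊤ : SimpleGraph (Fin (2 * j))).edgeSet.ncard = (2 * j).choose 2 := by
    rw [← h3, ← SimpleGraph.coe_edgeFinset, Set.ncard_coe_finset]
  have h5 : j ≤ (2 * j).choose 2 := by
    rw [Nat.choose_two_right]
    rcases Nat.eq_zero_or_pos j with h | h
    · subst h; simp
    · rw [Nat.le_div_iff_mul_le (by norm_num)]
      obtain ⟨t, rfl⟩ : ∃ t, j = t + 1 := ⟨j - 1, by omega⟩
      have : 2 * (t + 1) - 1 = 2 * t + 1 := by omega
      rw [this]; nlinarith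
  obtain ⟨G, -, hG⟩ := Upper.exists_subgraph (⊤ : SimpleGraph (Fin (2 * j))) j (by rw [h4]; exact h5)
  exact Nat.sInf_mem (s := {k : ℕ | ∃ H : SimpleGraph (Fin (2 * j)),
    H.edgeSet.ncard = j ∧ maxCut H = k}) ⟨_, G, hG, rfl⟩

theorem cut_le {n : ℕ} (H : SimpleGraph (Fin n)) (S : Finset (Fin n)) :
    Final.cr H S ≤ maxCut H := le_csSup (bddAbove_cut H) ⟨S, rfl⟩

theorem cr_le_edges {n : ℕ} (H : SimpleGraph (Fin n)) (S : Finset (Fin n)) :
    Final.cr H S ≤ H.edgeSet.ncard := by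
  have hx : ∀ v, (Bisect.ind S - Bisect.ind Sᶜ : Fin n → ℤ) v = 1 ∨
      (Bisect.ind S - Bisect.ind Sᶜ : Fin n → ℤ) v = -1 := by
    intro v
    by_cases hv : v ∈ S <;> simp [Bisect.ind, hv]
  have h1 := Final.cr_formula H S
  have h2 := Upper.B_ge H _ hx
  rw [Bisect.B_one_one] at h1
  omega

theorem f_le (j : ℕ) : f j ≤ j := by
  obtain ⟨H, hH, hf⟩ := f_attained j
  rw [← hf]
  apply csSup_le'
  rintro k ⟨S, rfl⟩
  have h1 := cr_le_edges H S
  rw [hH] at h1
  rw [crossing_eq]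
  exact h1

/-- arithmetic of the parameters -/
theorem params {d m t j : ℕ} (hd : 2 ≤ d) (hm : 400 * d ^ 4 ≤ m)
    (htj : 2 * d * t + j = m + d * (d + 1) / 2) (hj : j < 2 * d) :
    ((2 * (d : ℤ) * t + j) * 2 = 2 * m + d * (d + 1)) ∧ 20 * d ^ 3 ≤ t := by
  obtain ⟨c, hc⟩ := Nat.even_mul_succ_self d
  have h1 : d * (d + 1) / 2 = c := by omega
  rw [h1] at htj
  constructor
  · have h2 : 2 * (d : ℤ) * t + j = m + c := by exact_mod_cast htj
    have h3 : (d : ℤ) * (d + 1) = c + c := by exact_mod_cast hc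
    linarith
  · by_contra hcon
    have h4 : t + 1 ≤ 20 * d ^ 3 := by omega
    have h5 : 2 * d * (t + 1) ≤ 2 * d * (20 * d ^ 3) := Nat.mul_le_mul_left _ h4
    have h6 : 2 * d * (20 * d ^ 3) = 40 * d ^ 4 := by ring
    have h7 : 0 < d ^ 4 := by positivity
    have h8 : 2 * d * t + 2 * d = 2 * d * (t + 1) := by ring
    omega

/-- upper bound with `f(j)`. -/
theorem upper_f {d m t j : ℕ} (hd : 2 ≤ d) (hm : 400 * d ^ 4 ≤ m)
    (htj : 2 * d * t + j = m + d * (d + 1) / 2) (hj : j < 2 * d) :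
    bdeg d m ≤ d * t + f j := by
  obtain ⟨hp, ht⟩ := params hd hm htj hj
  have hd3 : d ≤ d ^ 3 := Nat.le_self_pow (by norm_num) d
  obtain ⟨A, -, hA⟩ := exists_subset_card_eq (s := (univ : Finset (Fin (2 * t)))) (n := d)
    (by rw [card_univ, Fintype.card_fin]; omega)
  obtain ⟨H, hH, hf⟩ := f_attained j
  obtain ⟨H', hH'1, hH'2, hH'3⟩ := MinDegUpper.transport (V := Fin (2 * t)) H Aᶜ (by
    rw [Fintype.card_fin, card_compl, Fintype.card_fin, hA]; omega)
  obtain ⟨G, hG⟩ : ∃ G : SimpleGraph (Fin (2 * t)), G = Upper.GA A ⊔ H' := ⟨_, rfl⟩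
  obtain ⟨h1, h2⟩ := MinDegUpper.join_upper A H' (fun u v h => by
    have := hH'1 u v h
    rw [mem_compl, mem_compl] at this
    exact this)
  have h3 := MinDegUpper.deg_join A H' (by rw [hA, Fintype.card_fin]; omega)
  rw [← hG] at h1 h2
  rw [hA, Fintype.card_fin, hH'2, hH] at h1
  have hGm : G.edgeSet.ncard = m := by
    push_cast at h1
    have : (G.edgeSet.ncard : ℤ) = m := by linarith
    exact_mod_cast this
  refine bdeg_le G hGm ?_ _ ?_
  · intro v
    have := h3 v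
    rw [hA] at this
    refine this.trans (card_le_card ?_)
    intro u hu
    have hu' := (mem_filter.mp hu).2
    rw [← hG] at hu'
    exact mem_filter.mpr ⟨mem_univ _, hu'⟩
  · intro S hs1 hs2
    have h4 := h2 S hs1 hs2
    obtain ⟨S', hS'⟩ := hH'3 S
    have h5 := cut_le H S'
    rw [hf, ← hS'] at h5
    rw [hA, Fintype.card_fin] at h4
    have hsg : Final.sg (Fin (2 * t)) = 0 := by
      unfold Final.sg
      rw [Fintype.card_fin, if_pos (even_two_mul t)]
    rw [hsg] at h4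
    push_cast at h4
    have h6 : (Final.cr G S : ℤ) ≤ d * t + Final.cr H' S := by linarith
    have h7 : Final.cr G S ≤ d * t + Final.cr H' S := by exact_mod_cast h6
    omega

/-- upper bound by removing edges inside the hub. -/
theorem upper_neg {d m t j : ℕ} (hd : 2 ≤ d) (hm : 400 * d ^ 4 ≤ m)
    (htj : 2 * d * t + j = m + d * (d + 1) / 2) (hj : j < 2 * d)
    (hi : 2 * (2 * d - j) ≤ d * (d - 1)) : bdeg d m ≤ d * t + d := by
  obtain ⟨hp, ht⟩ := params hd hm htj hj
  have hd3 : d ≤ d ^ 3 := Nat.le_self_pow (by norm_num) d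
  obtain ⟨A, -, hA⟩ := exists_subset_card_eq (s := (univ : Finset (Fin (2 * (t + 1))))) (n := d)
    (by rw [card_univ, Fintype.card_fin]; omega)
  obtain ⟨G, h1, h3, h2⟩ := MinDegUpper.neg_upper A (2 * d - j) (by rw [hA]; exact hi)
    (by rw [hA, Fintype.card_fin]; omega)
  rw [hA, Fintype.card_fin] at h1
  have hGm : G.edgeSet.ncard = m := by
    rw [Nat.cast_sub hj.le] at h1
    push_cast at h1
    have : (G.edgeSet.ncard : ℤ) = m := by linarith
    exact_mod_cast this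
  refine bdeg_le G hGm ?_ _ ?_
  · intro v
    have := h3 v
    rw [hA] at this
    exact this
  · intro S hs1 hs2
    have h4 := h2 S hs1 hs2
    rw [hA, Fintype.card_fin] at h4
    have hsg : Final.sg (Fin (2 * (t + 1))) = 0 := by
      unfold Final.sg
      rw [Fintype.card_fin, if_pos (even_two_mul (t + 1))]
    rw [hsg] at h4
    push_cast at h4
    have h6 : (Final.cr G S : ℤ) ≤ d * t + d := by linarith
    exact_mod_cast h6

theorem upper {d m t j : ℕ} (hd : 2 ≤ d) (hm : 400 * d ^ 4 ≤ m)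
    (htj : 2 * d * t + j = m + d * (d + 1) / 2) (hj : j < 2 * d) :
    bdeg d m ≤ d * t + min (f j) d := by
  have h1 := upper_f hd hm htj hj
  by_cases hi : 2 * (2 * d - j) ≤ d * (d - 1)
  · have h2 := upper_neg hd hm htj hj hi
    omega
  · have h3 := f_le j
    have h4 : j ≤ d := by
      push Not at hi
      obtain ⟨c, rfl⟩ : ∃ c, d = c + 2 := ⟨d - 2, by omega⟩
      have e : c + 2 - 1 = c + 1 := by omega
      rw [e] at hi
      by_contra hcon
      push Not at hcon
      have h5 : 2 * (c + 2) - j ≤ c + 1 := by omega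
      nlinarith
    omega

theorem nonempty_graphs {d m t j : ℕ} (hd : 2 ≤ d) (hm : 400 * d ^ 4 ≤ m)
    (htj : 2 * d * t + j = m + d * (d + 1) / 2) (hj : j < 2 * d) :
    ∃ (n : ℕ) (G : SimpleGraph (Fin n)), G.edgeSet.ncard = m ∧
    (∀ v, d ≤ (G.neighborSet v).ncard) := by
  obtain ⟨hp, ht⟩ := params hd hm htj hj
  have hd3 : d ≤ d ^ 3 := Nat.le_self_pow (by norm_num) d
  obtain ⟨A, -, hA⟩ := exists_subset_card_eq (s := (univ : Finset (Fin (2 * t)))) (n := d)
    (by rw [card_univ, Fintype.card_fin]; omega)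
  obtain ⟨H, hH, hf⟩ := f_attained j
  obtain ⟨H', hH'1, hH'2, hH'3⟩ := MinDegUpper.transport (V := Fin (2 * t)) H Aᶜ (by
    rw [Fintype.card_fin, card_compl, Fintype.card_fin, hA]; omega)
  obtain ⟨G, hG⟩ : ∃ G : SimpleGraph (Fin (2 * t)), G = Upper.GA A ⊔ H' := ⟨_, rfl⟩
  obtain ⟨h1, h2⟩ := MinDegUpper.join_upper A H' (fun u v h => by
    have := hH'1 u v h
    rw [mem_compl, mem_compl] at this
    exact this)
  have h3 := MinDegUpper.deg_join A H' (by rw [hA, Fintype.card_fin]; omega)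
  rw [← hG] at h1 h2
  rw [hA, Fintype.card_fin, hH'2, hH] at h1
  have hGm : G.edgeSet.ncard = m := by
    push_cast at h1
    have : (G.edgeSet.ncard : ℤ) = m := by linarith
    exact_mod_cast this
  refine ⟨_, G, hGm, ?_⟩
  intro v
  rw [← nb]
  have := h3 v
  rw [hA] at this
  refine this.trans (card_le_card ?_)
  intro u hu
  have hu' := (mem_filter.mp hu).2
  rw [← hG] at hu'
  exact mem_filter.mpr ⟨mem_univ _, hu'⟩

theorem lower {d m t j : ℕ} (hd : 2 ≤ d) (hm : 400 * d ^ 4 ≤ m)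
    (htj : 2 * d * t + j = m + d * (d + 1) / 2) (hj : j < 2 * d) :
    d * t + min (edw j) d ≤ bdeg d m := by
  obtain ⟨n0, G0, h01, h02⟩ := nonempty_graphs hd hm htj hj
  have hmem := Nat.sInf_mem (s := {k : ℕ | ∃ (n : ℕ) (G : SimpleGraph (Fin n)),
    G.edgeSet.ncard = m ∧ (∀ v, d ≤ (G.neighborSet v).ncard) ∧ maxBisection G = k})
    ⟨_, n0, G0, h01, h02, rfl⟩
  obtain ⟨n, G, hG1, hG2, hG3⟩ := hmem
  change maxBisection G = bdeg d m at hG3
  obtain ⟨S, h1, h2, h3⟩ := MinDeg.lower G d m t j hd hG1 hm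
    (fun v => by rw [nb]; exact hG2 v) htj hj
  have h4 : Final.cr G S ≤ bdeg d m := by
    rw [← hG3]
    exact le_csSup (bddAbove_bis G) ⟨S, h1, h2, rfl⟩
  have h4r : (Final.cr G S : ℝ) ≤ bdeg d m := by exact_mod_cast h4
  unfold MinDeg.ps at h3
  rcases le_total (edw j) d with h | h
  · rw [min_eq_left h]
    rcases le_total ((j : ℝ) / 2 + (Real.sqrt (8 * j + 1) - 1) / 8) (d : ℝ) with h' | h'
    · rw [min_eq_left h'] at h3
      have h5 : (j : ℝ) / 2 + (Real.sqrt (8 * j + 1) - 1) / 8 ≤ ((bdeg d m - d * t : ℕ) : ℝ) := by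
        have hle : d * t ≤ bdeg d m := by
          have h0 : 0 ≤ (j : ℝ) / 2 + (Real.sqrt (8 * j + 1) - 1) / 8 := by
            have := MinDeg.ps_nonneg (j := (j : ℝ)) (Nat.cast_nonneg j)
            unfold MinDeg.ps at this
            positivity
          have : ((d * t : ℕ) : ℝ) ≤ bdeg d m := by push_cast; linarith
          exact_mod_cast this
        rw [Nat.cast_sub hle]
        push_cast
        linarith
      have h6 : edw j ≤ bdeg d m - d * t := Nat.ceil_le.mpr h5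
      have hle : d * t ≤ bdeg d m := by
        have h0 : 0 ≤ (j : ℝ) / 2 + (Real.sqrt (8 * j + 1) - 1) / 8 := by
          have := MinDeg.ps_nonneg (j := (j : ℝ)) (Nat.cast_nonneg j)
          unfold MinDeg.ps at this
          positivity
        have : ((d * t : ℕ) : ℝ) ≤ bdeg d m := by push_cast; linarith
        exact_mod_cast this
      omega
    · rw [min_eq_right h'] at h3
      have : ((d * t + d : ℕ) : ℝ) ≤ bdeg d m := by push_cast; linarith
      have : d * t + d ≤ bdeg d m := by exact_mod_cast this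
      omega
  · rw [min_eq_right h]
    rcases le_total ((j : ℝ) / 2 + (Real.sqrt (8 * j + 1) - 1) / 8) (d : ℝ) with h' | h'
    · have : edw j ≤ d := Nat.ceil_le.mpr h'
      have hdj : edw j = d := le_antisymm this h
      rw [min_eq_left h'] at h3
      have h0 : 0 ≤ (j : ℝ) / 2 + (Real.sqrt (8 * j + 1) - 1) / 8 := by
        have := MinDeg.ps_nonneg (j := (j : ℝ)) (Nat.cast_nonneg j)
        unfold MinDeg.ps at this
        positivity
      have hle : d * t ≤ bdeg d m := by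
        have : ((d * t : ℕ) : ℝ) ≤ bdeg d m := by push_cast; linarith
        exact_mod_cast this
      have h5 : (j : ℝ) / 2 + (Real.sqrt (8 * j + 1) - 1) / 8 ≤ ((bdeg d m - d * t : ℕ) : ℝ) := by
        rw [Nat.cast_sub hle]
        push_cast
        linarith
      have h6 : edw j ≤ bdeg d m - d * t := Nat.ceil_le.mpr h5
      omega
    · rw [min_eq_right h'] at h3
      have : ((d * t + d : ℕ) : ℝ) ≤ bdeg d m := by push_cast; linarith
      exact_mod_cast this

theorem f_upper (j s1 s2 s3 j3 c : ℕ) (hsz : s1 + s2 + s3 ≤ 2 * j)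
    (hj3 : 2 * j3 ≤ s3 * (s3 - 1))
    (hj : (s1 : ℤ) * (s1 - 1) + s2 * (s2 - 1) + 2 * j3 = 2 * j)
    (hc : 2 * j + 2 * (s1 / 2) + 2 * (s2 / 2) + 2 * j3 < 4 * (c + 1)) : f j ≤ c := by
  obtain ⟨G, h1, h2⟩ := MinDegUpper.cliques (V := Fin (2 * j)) s1 s2 s3 j3
    (by rw [Fintype.card_fin]; exact hsz) hj3
  have h3 : G.edgeSet.ncard = j := by
    have : 2 * (G.edgeSet.ncard : ℤ) = 2 * j := by rw [h1, hj]
    have : (G.edgeSet.ncard : ℤ) = j := by linarith
    exact_mod_cast this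
  have h4 : f j ≤ maxCut G := Nat.sInf_le ⟨G, h3, rfl⟩
  refine h4.trans ?_
  apply csSup_le'
  rintro k ⟨S, rfl⟩
  have h5 := h2 S
  rw [h3] at h5
  rw [crossing_eq]
  omega

theorem edw_ge (j c s : ℕ) (hs : s * s ≤ 8 * j + 1) (h : 8 * c + 1 < s + 4 * j) :
    c + 1 ≤ edw j := by
  unfold edw
  rw [Nat.succ_le_iff, Nat.lt_ceil]
  have h1 : (s : ℝ) ≤ Real.sqrt (8 * j + 1) := by
    apply Real.le_sqrt_of_sq_le
    have : ((s * s : ℕ) : ℝ) ≤ ((8 * j + 1 : ℕ) : ℝ) := by exact_mod_cast hs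
    push_cast at this
    nlinarith
  have h2 : (8 : ℝ) * c + 1 < s + 4 * j := by exact_mod_cast h
  linarith

theorem small (d j : ℕ) (hd : d ≤ 5) (hj : j < 2 * d) : min (f j) d ≤ min (edw j) d := by
  obtain h | h : j ≤ 7 ∨ 8 ≤ j := by omega
  · have key : f j ≤ edw j := by
      interval_cases j
      · exact (f_le 0).trans (Nat.zero_le _)
      · exact (f_le 1).trans (edw_ge 1 0 1 (by norm_num) (by norm_num))
      · exact (f_le 2).trans (edw_ge 2 1 2 (by norm_num) (by norm_num))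
      · exact (f_upper 3 3 0 0 0 2 (by norm_num) (by norm_num) (by norm_num) (by norm_num)).trans
          (edw_ge 3 1 1 (by norm_num) (by norm_num))
      · exact (f_upper 4 3 2 0 0 3 (by norm_num) (by norm_num) (by norm_num) (by norm_num)).trans
          (edw_ge 4 2 2 (by norm_num) (by norm_num))
      · exact (f_upper 5 3 2 2 1 4 (by norm_num) (by norm_num) (by norm_num) (by norm_num)).trans
          (edw_ge 5 3 6 (by norm_num) (by norm_num))
      · exact (f_upper 6 4 0 0 0 4 (by norm_num) (by norm_num) (by norm_num) (by norm_num)).trans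
          (edw_ge 6 3 2 (by norm_num) (by norm_num))
      · exact (f_upper 7 4 2 0 0 5 (by norm_num) (by norm_num) (by norm_num) (by norm_num)).trans
          (edw_ge 7 4 6 (by norm_num) (by norm_num))
    omega
  · have hd5 : d = 5 := by omega
    subst hd5
    have h5 : 5 ≤ edw j := by
      obtain rfl | rfl : j = 8 ∨ j = 9 := by omega
      · exact edw_ge 8 4 2 (by norm_num) (by norm_num)
      · exact edw_ge 9 4 2 (by norm_num) (by norm_num)
    omega

/-- Let `d ≥ 2`, `m ≥ 400 d⁴`, and write `m + d(d+1)/2 = 2 d t + j` with `0 ≤ j < 2d`. Then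
`d t + min(⌈j/2 + (√(8j+1) - 1)/8⌉, d) ≤ b_d(m) ≤ d t + min(f(j), d)`, with equality on the left
for `d ≤ 5`. -/
theorem result : ∀ d m t j : ℕ, 2 ≤ d → 400 * d ^ 4 ≤ m → j < 2 * d →
    2 * d * t + j = m + d * (d + 1) / 2 →
    (d * t + min (edw j) d ≤ bdeg d m ∧ bdeg d m ≤ d * t + min (f j) d) ∧
    (d ≤ 5 → bdeg d m = d * t + min (edw j) d) := by
  intro d m t j hd hm hj htj
  have h1 := lower hd hm htj hj
  have h2 := upper hd hm htj hj
  refine ⟨⟨h1, h2⟩, ?_⟩
  intro h5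
  have h3 := small d j h5 hj
  omega

end Pool.Agent.Results.MP_5de61a_co.LargeM
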